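import Pool.Agent.P.MP_90339f_al.H2.Fp

set_option autoImplicit false

namespace Pool.Agent.Results.MP_90339f_al.FinPres

open Pool.Agent.P.MP_90339f_al.H2 in
/-- A finitely presented torsion-free metabelian group of finite rank with an uncountable Artinian
module. -/
theorem result : ∃ (G : Type) (_ : Group G), Group.IsFinitelyPresented G ∧
    (∀ g : G, IsOfFinOrder g → g = 1) ∧ derivedSeries G 2 = ⊥ ∧
    (∀ H : Subgroup G, H.FG → ∃ s : Finset G, s.card ≤ 4 ∧ Subgroup.closure (s : Set G) = H) ∧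
    ∃ (M : Type) (_ : AddCommGroup M) (_ : Module (MonoidAlgebra ℤ G) M),
      IsArtinian (MonoidAlgebra ℤ G) M ∧ ¬ Countable M :=
  ⟨Pg, inferInstance, inferInstance, pg_tf, pg_two, pg_rank, pg_unc⟩

end Pool.Agent.Results.MP_90339f_al.FinPres
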