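import Pool.Agent.P.MP_90339f_al.H2.Cnt

set_option autoImplicit false

namespace Pool.Agent.Results.MP_90339f_al.MinByMax

open Pool.Agent.P.MP_90339f_al.H2 in
/-- Classification of the soluble min-by-max groups all of whose Artinian modules are countable. -/
theorem result (G : Type) [Group G] (D : Subgroup G) [D.Normal] [IsMulCommutative D]
    (hmin : WellFoundedLT (Subgroup D)) (hsol : Group.IsSolvable (G ⧸ D))
    (hmax : ∀ H : Subgroup (G ⧸ D), H.FG) :
    (∀ (M : Type) [AddCommGroup M] [Module (MonoidAlgebra ℤ G) M],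
      IsArtinian (MonoidAlgebra ℤ G) M → Countable M) ↔
    ∀ X : Subgroup G, X ≤ D → (Subgroup.normalizer (X : Set G)).FiniteIndex := by
  constructor
  · intro h X hX
    by_contra hn
    obtain ⟨M, _, _, h1, h2⟩ := unc_of_inf D hsol hmax (X.subgroupOf D) (by
      rwa [Nm_conj, Subgroup.map_subgroupOf_eq_of_le hX])
    exact h2 (h M h1)
  · intro h M _ _ _
    exact cnt D hsol hmax (fun X => by
      rw [Nm_conj]
      exact h _ (Subgroup.map_subtype_le X)) M

end Pool.Agent.Results.MP_90339f_al.MinByMax
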